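import Mathlib

/-! # Lower bounds for integral combinations of square roots -/

set_option autoImplicit false

namespace Pool.Agent.T3h35.MS

variable {ι : Type} (a : ι → ℕ)

/-- `x` is an integral combination of products of the `√(a i)`, `i` in the list, with norm at most `M` -/
def Rep : List ι → ℝ → ℝ → Prop
  | [], x, M => ∃ z : ℤ, x = z ∧ |(z : ℝ)| ≤ M
  | i :: l, x, M => ∃ u v Mu Mv : ℝ, Rep l u Mu ∧ Rep l v Mv ∧ x = u + √(a i) * v ∧
      Mu + √(a i) * Mv ≤ M

variable {a}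

theorem Rep.mono {l : List ι} {x M M' : ℝ} (h : Rep a l x M) (hM : M ≤ M') : Rep a l x M' := by
  cases l with
  | nil => obtain ⟨z, h1, h2⟩ := h; exact ⟨z, h1, h2.trans hM⟩
  | cons i l => obtain ⟨u, v, Mu, Mv, h1, h2, h3, h4⟩ := h; exact ⟨u, v, Mu, Mv, h1, h2, h3, h4.trans hM⟩

theorem Rep.abs_le : ∀ {l : List ι} {x M : ℝ}, Rep a l x M → |x| ≤ M
  | [], x, M, h => by obtain ⟨z, h1, h2⟩ := h; rw [h1]; exact h2
  | i :: l, x, M, h => by
    obtain ⟨u, v, Mu, Mv, h1, h2, h3, h4⟩ := h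
    have hs := Real.sqrt_nonneg (a i : ℝ)
    rw [h3]
    refine (abs_add_le _ _).trans ?_
    rw [abs_mul, abs_of_nonneg hs]
    have := mul_le_mul_of_nonneg_left h2.abs_le hs
    linarith [h1.abs_le]

theorem Rep.nonneg {l : List ι} {x M : ℝ} (h : Rep a l x M) : 0 ≤ M := (abs_nonneg x).trans h.abs_le

theorem Rep.const (l : List ι) (z : ℤ) : Rep a l z |(z : ℝ)| := by
  induction l with
  | nil => exact ⟨z, rfl, le_rfl⟩
  | cons i l ih =>
    have h0 : Rep a l ((0 : ℤ) : ℝ) 0 := by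
      clear ih
      induction l with
      | nil => exact ⟨0, rfl, by simp⟩
      | cons j l ih2 => exact ⟨_, _, 0, 0, ih2, ih2, by simp, by simp⟩
    exact ⟨z, _, |(z : ℝ)|, 0, ih, h0, by simp, by simp⟩

theorem Rep.add : ∀ {l : List ι} {x y M N : ℝ}, Rep a l x M → Rep a l y N → Rep a l (x + y) (M + N)
  | [], x, y, M, N, h, h' => by
    obtain ⟨z, h1, h2⟩ := h
    obtain ⟨z', h1', h2'⟩ := h'
    refine ⟨z + z', by rw [h1, h1']; push_cast; ring, ?_⟩
    push_cast
    exact (abs_add_le _ _).trans (add_le_add h2 h2')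
  | i :: l, x, y, M, N, h, h' => by
    obtain ⟨u, v, Mu, Mv, h1, h2, h3, h4⟩ := h
    obtain ⟨u', v', Mu', Mv', h1', h2', h3', h4'⟩ := h'
    exact ⟨u + u', v + v', Mu + Mu', Mv + Mv', h1.add h1', h2.add h2', by rw [h3, h3']; ring, by
      linarith⟩

theorem Rep.neg : ∀ {l : List ι} {x M : ℝ}, Rep a l x M → Rep a l (-x) M
  | [], x, M, h => by
    obtain ⟨z, h1, h2⟩ := h
    exact ⟨-z, by rw [h1]; push_cast; ring, by push_cast; rw [abs_neg]; exact h2⟩
  | i :: l, x, M, h => by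
    obtain ⟨u, v, Mu, Mv, h1, h2, h3, h4⟩ := h
    exact ⟨-u, -v, Mu, Mv, h1.neg, h2.neg, by rw [h3]; ring, h4⟩

theorem Rep.nat (n : ℕ) : ∀ {l : List ι} {x M : ℝ}, Rep a l x M → Rep a l (n * x) (n * M)
  | [], x, M, h => by
    obtain ⟨z, h1, h2⟩ := h
    refine ⟨n * z, by rw [h1]; push_cast; ring, ?_⟩
    push_cast
    rw [abs_mul, abs_of_nonneg (Nat.cast_nonneg n)]
    exact mul_le_mul_of_nonneg_left h2 (Nat.cast_nonneg n)
  | i :: l, x, M, h => by
    obtain ⟨u, v, Mu, Mv, h1, h2, h3, h4⟩ := h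
    refine ⟨n * u, n * v, n * Mu, n * Mv, h1.nat n, h2.nat n, by rw [h3]; ring, ?_⟩
    have := mul_le_mul_of_nonneg_left h4 (Nat.cast_nonneg (α := ℝ) n)
    linarith

theorem Rep.mul : ∀ {l : List ι} {x y M N : ℝ}, Rep a l x M → Rep a l y N → Rep a l (x * y) (M * N)
  | [], x, y, M, N, h, h' => by
    have hM := h.nonneg
    obtain ⟨z, h1, h2⟩ := h
    obtain ⟨z', h1', h2'⟩ := h'
    refine ⟨z * z', by rw [h1, h1']; push_cast; ring, ?_⟩
    push_cast
    rw [abs_mul]
    exact mul_le_mul h2 h2' (abs_nonneg _) hM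
  | i :: l, x, y, M, N, h, h' => by
    have hM := h.nonneg
    have hN := h'.nonneg
    obtain ⟨u, v, Mu, Mv, h1, h2, h3, h4⟩ := h
    obtain ⟨u', v', Mu', Mv', h1', h2', h3', h4'⟩ := h'
    have hs : √(a i : ℝ) * √(a i : ℝ) = (a i : ℝ) := Real.mul_self_sqrt (Nat.cast_nonneg _)
    have hsn := Real.sqrt_nonneg (a i : ℝ)
    refine ⟨u * u' + (a i : ℝ) * (v * v'), u * v' + v * u', Mu * Mu' + (a i : ℝ) * (Mv * Mv'),
      Mu * Mv' + Mv * Mu', (h1.mul h1').add ((h2.mul h2').nat (a i)), (h1.mul h2').add (h2.mul h1'),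
      ?_, ?_⟩
    · rw [h3, h3']
      linear_combination (v * v') * hs
    · have h5 : (Mu + √(a i) * Mv) * (Mu' + √(a i) * Mv') ≤ M * N :=
        mul_le_mul h4 h4' (add_nonneg h1'.nonneg (mul_nonneg hsn h2'.nonneg)) hM
      refine le_trans (le_of_eq ?_) h5
      linear_combination (-(Mv * Mv')) * hs

theorem Rep.one_le (ha : ∀ i, 1 ≤ a i) : ∀ {l : List ι} {x M : ℝ}, Rep a l x M → x ≠ 0 → 1 ≤ M
  | [], x, M, h, hx => by
    obtain ⟨z, h1, h2⟩ := h
    have hz : z ≠ 0 := fun h0 => hx (by rw [h1, h0]; simp)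
    have : (1 : ℝ) ≤ |(z : ℝ)| := by
      rw [← Int.cast_abs]
      exact_mod_cast Int.one_le_abs hz
    linarith
  | i :: l, x, M, h, hx => by
    obtain ⟨u, v, Mu, Mv, h1, h2, h3, h4⟩ := h
    have hs1 : 1 ≤ √(a i : ℝ) := by
      rw [Real.one_le_sqrt]
      exact_mod_cast ha i
    have hMu := h1.nonneg
    have hMv := h2.nonneg
    by_cases hu : u = 0
    · have hv : v ≠ 0 := fun h0 => hx (by rw [h3, hu, h0]; simp)
      have := h2.one_le ha hv
      nlinarith
    · have := h1.one_le ha hu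
      nlinarith

/-- the lower bound -/
theorem Rep.lower (ha : ∀ i, 1 ≤ a i) : ∀ {l : List ι} {x M : ℝ}, Rep a l x M → x ≠ 0 →
    1 ≤ |x| * M ^ (2 ^ l.length - 1)
  | [], x, M, h, hx => by
    obtain ⟨z, h1, h2⟩ := h
    have hz : z ≠ 0 := fun h0 => hx (by rw [h1, h0]; simp)
    have : (1 : ℝ) ≤ |(z : ℝ)| := by
      rw [← Int.cast_abs]
      exact_mod_cast Int.one_le_abs hz
    simpa [h1] using this
  | i :: l, x, M, h, hx => by
    have hM1 := h.one_le ha hx
    obtain ⟨u, v, Mu, Mv, h1, h2, h3, h4⟩ := h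
    have hs : √(a i : ℝ) * √(a i : ℝ) = (a i : ℝ) := Real.mul_self_sqrt (Nat.cast_nonneg _)
    have hsn := Real.sqrt_nonneg (a i : ℝ)
    have hMu := h1.nonneg
    have hMv := h2.nonneg
    have hk : 1 ≤ 2 ^ l.length := Nat.one_le_two_pow
    have hexp : 2 ^ (i :: l).length - 1 = 2 * (2 ^ l.length - 1) + 1 := by
      rw [List.length_cons, pow_succ]
      omega
    by_cases hy : u - √(a i) * v = 0
    · have hx2 : x = 2 * u := by rw [h3]; linarith
      have hu : u ≠ 0 := fun h0 => hx (by rw [hx2, h0, mul_zero])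
      have ih := h1.lower ha hu
      have hMuM : Mu ≤ M := by
        have := mul_nonneg hsn hMv
        linarith
      have h5 : Mu ^ (2 ^ l.length - 1) ≤ M ^ (2 ^ (i :: l).length - 1) := by
        refine (pow_le_pow_left₀ hMu hMuM _).trans ?_
        exact pow_le_pow_right₀ hM1 (by omega)
      calc 1 ≤ |u| * Mu ^ (2 ^ l.length - 1) := ih
        _ ≤ |x| * M ^ (2 ^ (i :: l).length - 1) := by
          refine mul_le_mul ?_ h5 (by positivity) (abs_nonneg _)
          rw [hx2, abs_mul]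
          have := abs_nonneg u
          rw [abs_of_pos (by norm_num : (0 : ℝ) < 2)]
          linarith
    · have hxy : x * (u - √(a i) * v) ≠ 0 := mul_ne_zero hx hy
      have h5 : x * (u - √(a i) * v) = u * u + -((a i : ℝ) * (v * v)) := by
        rw [h3]
        linear_combination (-(v * v)) * hs
      have h6 : Rep a l (x * (u - √(a i) * v)) (M ^ 2) := by
        rw [h5]
        refine ((h1.mul h1).add ((h2.mul h2).nat (a i)).neg).mono ?_
        have h7 : (Mu + √(a i) * Mv) ^ 2 ≤ M ^ 2 :=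
          pow_le_pow_left₀ (add_nonneg hMu (mul_nonneg hsn hMv)) h4 2
        refine le_trans ?_ h7
        have h8 : 0 ≤ 2 * (Mu * (√(a i) * Mv)) := by positivity
        have h9 : (Mu + √(a i) * Mv) ^ 2 = Mu * Mu + (a i : ℝ) * (Mv * Mv) +
            2 * (Mu * (√(a i) * Mv)) := by
          linear_combination (Mv * Mv) * hs
        rw [h9]
        linarith
      have ih := h6.lower ha hxy
      have hyM : |u - √(a i) * v| ≤ M := by
        have h7 : |u - √(a i) * v| ≤ |u| + |√(a i) * v| := abs_sub _ _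
        rw [abs_mul, abs_of_nonneg hsn] at h7
        have h8 := mul_le_mul_of_nonneg_left h2.abs_le hsn
        linarith [h1.abs_le]
      rw [hexp, pow_succ, pow_mul]
      calc 1 ≤ |x * (u - √(a i) * v)| * (M ^ 2) ^ (2 ^ l.length - 1) := ih
        _ = |x| * ((M ^ 2) ^ (2 ^ l.length - 1) * |u - √(a i) * v|) := by rw [abs_mul]; ring
        _ ≤ |x| * ((M ^ 2) ^ (2 ^ l.length - 1) * M) := by
          refine mul_le_mul_of_nonneg_left ?_ (abs_nonneg _)
          exact mul_le_mul_of_nonneg_left hyM (by positivity)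

/-- signed sums of square roots plus an integer -/
theorem rep_sum (ε : ι → ℤ) (hε : ∀ i, |ε i| = 1) (k : ℤ) : ∀ l : List ι,
    Rep a l (k + (l.map fun i => (ε i : ℝ) * √(a i)).sum) (|(k : ℝ)| + (l.map fun i => √(a i : ℝ)).sum)
  | [] => ⟨k, by simp, by simp⟩
  | i :: l => by
    refine ⟨_, ((ε i : ℤ) : ℝ), _, |((ε i : ℤ) : ℝ)|, rep_sum ε hε k l, Rep.const l _, ?_, ?_⟩
    · simp only [List.map_cons, List.sum_cons]
      ring
    · have : |((ε i : ℤ) : ℝ)| = 1 := by
        rw [← Int.cast_abs, hε i]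
        simp
      rw [this]
      simp only [List.map_cons, List.sum_cons]
      linarith

/-- **lower bound** for a signed sum of square roots minus an integer -/
theorem lower_sum [Fintype ι] (ha : ∀ i, 1 ≤ a i) (ε : ι → ℤ) (hε : ∀ i, |ε i| = 1) (k : ℤ)
    (h : (∑ i, (ε i : ℝ) * √(a i)) - k ≠ 0) :
    1 ≤ |(∑ i, (ε i : ℝ) * √(a i)) - k| * (|(k : ℝ)| + ∑ i, √(a i : ℝ)) ^ (2 ^ Fintype.card ι - 1) := by
  have h1 := rep_sum (a := a) ε hε (-k) (Finset.univ.toList : List ι)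
  have e1 : ((Finset.univ.toList : List ι).map fun i => (ε i : ℝ) * √(a i)).sum =
      ∑ i, (ε i : ℝ) * √(a i) := Finset.sum_map_toList _ _
  have e2 : ((Finset.univ.toList : List ι).map fun i => √(a i : ℝ)).sum = ∑ i, √(a i : ℝ) :=
    Finset.sum_map_toList _ _
  rw [e1, e2] at h1
  have e3 : (((-k : ℤ) : ℝ) + ∑ i, (ε i : ℝ) * √(a i)) = (∑ i, (ε i : ℝ) * √(a i)) - k := by
    push_cast
    ring
  rw [e3] at h1
  have h2 := h1.lower ha h
  rw [Finset.length_toList, Finset.card_univ] at h2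
  simpa using h2

end Pool.Agent.T3h35.MS
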