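import Mathlib

/-! # Counting tuples in which each entry is a square or has a partner -/

set_option autoImplicit false

open Finset

namespace Pool.Agent.T3h35.MS

/-! ### squares -/

theorem sq_cancel {b m : ℕ} (hb : 1 ≤ b) (h : IsSquare (b * b * m)) : IsSquare m := by
  obtain ⟨c, hc⟩ := h
  have h1 : b ∣ c := by
    have h2 : b ^ 2 ∣ c ^ 2 := ⟨m, by rw [sq, sq, hc]⟩
    exact (Nat.pow_dvd_pow_iff two_ne_zero).1 h2
  obtain ⟨d, rfl⟩ := h1
  refine ⟨d, ?_⟩
  have h3 : b * b * m = b * b * (d * d) := by rw [hc]; ring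
  exact Nat.eq_of_mul_eq_mul_left (by positivity) h3

theorem sq_of_mul {a b : ℕ} (ha : 1 ≤ a) (h : IsSquare a) (h2 : IsSquare (b * a)) : IsSquare b := by
  obtain ⟨c, rfl⟩ := h
  have hc : 1 ≤ c := by
    rcases Nat.eq_zero_or_pos c with h0 | h0
    · subst h0; omega
    · exact h0
  exact sq_cancel hc (by rw [mul_comm]; exact h2)

theorem sq_trans {a b c : ℕ} (hb : 1 ≤ b) (h1 : IsSquare (a * b)) (h2 : IsSquare (b * c)) :
    IsSquare (a * c) := by
  apply sq_cancel hb
  obtain ⟨d, hd⟩ := h1
  obtain ⟨e, he⟩ := h2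
  refine ⟨d * e, ?_⟩
  calc b * b * (a * c) = (a * b) * (b * c) := by ring
    _ = d * e * (d * e) := by rw [hd, he]; ring

/-- squarefree part -/
theorem struct {v : ℕ} (hv : 1 ≤ v) : ∃ s : ℕ, 1 ≤ s ∧ s ≤ v ∧ ∀ w, 1 ≤ w → IsSquare (v * w) →
    ∃ u, 1 ≤ u ∧ w = s * (u * u) := by
  obtain ⟨s, b, hsb, hs⟩ := Nat.sq_mul_squarefree v
  have hb : 1 ≤ b := by
    rcases Nat.eq_zero_or_pos b with h0 | h0
    · rw [h0] at hsb; simp at hsb; omega
    · exact h0
  have hs1 : 1 ≤ s := by
    rcases Nat.eq_zero_or_pos s with h0 | h0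
    · rw [h0] at hsb; simp at hsb; omega
    · exact h0
  refine ⟨s, hs1, ?_, fun w hw h => ?_⟩
  · rw [← hsb]
    exact Nat.le_mul_of_pos_left s (by positivity)
  · rw [← hsb] at h
    have h1 : IsSquare (s * w) := by
      apply sq_cancel hb
      have e : b * b * (s * w) = b ^ 2 * s * w := by ring
      rw [e]
      exact h
    obtain ⟨c, hc⟩ := h1
    have h2 : s ∣ c := by
      have h3 : s ∣ c ^ 2 := ⟨w, by rw [sq, ← hc]⟩
      exact (hs.dvd_pow_iff_dvd two_ne_zero).1 h3
    obtain ⟨u, rfl⟩ := h2
    have h4 : w = s * (u * u) := by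
      have h5 : s * w = s * (s * (u * u)) := by rw [hc]; ring
      exact Nat.eq_of_mul_eq_mul_left hs1 h5
    refine ⟨u, ?_, h4⟩
    rcases Nat.eq_zero_or_pos u with h0 | h0
    · rw [h0] at h4; simp at h4; omega
    · exact h0

/-- the squares up to `n` -/
def sqs (n : ℕ) : Finset ℕ := (Icc 1 n).filter fun v => IsSquare v

/-- the class of `v` -/
def cl (n v : ℕ) : Finset ℕ := (Icc 1 n).filter fun w => IsSquare (v * w)

/-- the pairs in one class -/
def PP (n : ℕ) : Finset (ℕ × ℕ) := (Icc 1 n ×ˢ Icc 1 n).filter fun p => IsSquare (p.1 * p.2)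

/-- the triples in one class -/
def P3 (n : ℕ) : Finset ((ℕ × ℕ) × ℕ) := (PP n ×ˢ Icc 1 n).filter fun q => IsSquare (q.1.1 * q.2)

theorem card_cl {n v : ℕ} (hv : 1 ≤ v) : (cl n v).card ≤ Nat.sqrt n := by
  obtain ⟨s, hs, -, h⟩ := struct hv
  have hsub : cl n v ⊆ (Icc 1 (Nat.sqrt n)).image fun u => s * (u * u) := by
    intro w hw
    rw [cl, mem_filter, mem_Icc] at hw
    obtain ⟨u, hu, rfl⟩ := h w hw.1.1 hw.2
    rw [mem_image]
    refine ⟨u, ?_, rfl⟩
    rw [mem_Icc]
    refine ⟨hu, Nat.le_sqrt.2 ?_⟩
    exact le_trans (Nat.le_mul_of_pos_left _ hs) hw.1.2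
  refine (card_le_card hsub).trans (card_image_le.trans ?_)
  rw [Nat.card_Icc]
  omega

theorem card_sqs (n : ℕ) : (sqs n).card ≤ Nat.sqrt n := by
  have : sqs n = cl n 1 := by
    unfold sqs cl
    simp only [one_mul]
  rw [this]
  exact card_cl le_rfl

theorem card_P3 (n : ℕ) : (P3 n).card ≤ (PP n).card * Nat.sqrt n := by
  have h1 : P3 n ⊆ (PP n).biUnion fun p => (cl n p.1).image fun w => (p, w) := by
    intro q hq
    rw [P3, mem_filter, mem_product] at hq
    rw [mem_biUnion]
    refine ⟨q.1, hq.1.1, ?_⟩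
    rw [mem_image]
    exact ⟨q.2, by rw [cl, mem_filter]; exact ⟨hq.1.2, hq.2⟩, rfl⟩
  refine (card_le_card h1).trans (card_biUnion_le.trans ?_)
  refine (sum_le_sum (g := fun _ => Nat.sqrt n) fun p hp => ?_).trans ?_
  · rw [PP, mem_filter, mem_product, mem_Icc] at hp
    exact card_image_le.trans (card_cl hp.1.1.1)
  · rw [sum_const, smul_eq_mul]

theorem card_PP (n : ℕ) : ((PP n).card : ℝ) ≤ n * (1 + Real.log n) := by
  have h1 : PP n ⊆ (Icc 1 n).biUnion fun s =>
      (Icc 1 (Nat.sqrt (n / s)) ×ˢ Icc 1 (Nat.sqrt (n / s))).image fun t =>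
        (s * (t.1 * t.1), s * (t.2 * t.2)) := by
    intro p hp
    rw [PP, mem_filter, mem_product, mem_Icc, mem_Icc] at hp
    obtain ⟨⟨⟨h1, h2⟩, h3, h4⟩, h5⟩ := hp
    obtain ⟨s, hs, hsv, h⟩ := struct h1
    obtain ⟨t, ht, hv⟩ := h p.1 h1 ⟨p.1, rfl⟩
    obtain ⟨u, hu, hw⟩ := h p.2 h3 h5
    rw [mem_biUnion]
    refine ⟨s, mem_Icc.2 ⟨hs, hsv.trans h2⟩, ?_⟩
    rw [mem_image]
    refine ⟨(t, u), ?_, by rw [← hv, ← hw]⟩
    rw [mem_product, mem_Icc, mem_Icc]
    refine ⟨⟨ht, Nat.le_sqrt.2 ?_⟩, hu, Nat.le_sqrt.2 ?_⟩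
    · rw [Nat.le_div_iff_mul_le hs]
      calc t * t * s = s * (t * t) := by ring
        _ ≤ n := by rw [← hv]; exact h2
    · rw [Nat.le_div_iff_mul_le hs]
      calc u * u * s = s * (u * u) := by ring
        _ ≤ n := by rw [← hw]; exact h4
  have h2 : (PP n).card ≤ ∑ s ∈ Icc 1 n, n / s := by
    refine (card_le_card h1).trans (card_biUnion_le.trans (sum_le_sum fun s _ => ?_))
    refine card_image_le.trans ?_
    rw [card_product, Nat.card_Icc, Nat.add_sub_cancel]
    exact Nat.sqrt_le _
  have h3 : ((∑ s ∈ Icc 1 n, n / s : ℕ) : ℝ) ≤ n * ∑ s ∈ Icc 1 n, (1 : ℝ) / s := by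
    push_cast
    rw [mul_sum]
    refine sum_le_sum fun s hs => ?_
    refine Nat.cast_div_le.trans (le_of_eq ?_)
    rw [mul_one_div]
  have h4 : ∑ s ∈ Icc 1 n, (1 : ℝ) / s = (harmonic n : ℝ) := by
    rw [harmonic_eq_sum_Icc]
    push_cast
    exact sum_congr rfl fun s _ => by rw [one_div]
  have h5 := harmonic_le_one_add_log n
  rw [h4] at h3
  calc ((PP n).card : ℝ) ≤ ((∑ s ∈ Icc 1 n, n / s : ℕ) : ℝ) := by exact_mod_cast h2
    _ ≤ n * (harmonic n : ℝ) := h3
    _ ≤ n * (1 + Real.log n) := mul_le_mul_of_nonneg_left h5 (Nat.cast_nonneg n)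

/-! ### tuples -/

section

variable {ι : Type} [Fintype ι] [DecidableEq ι]

/-- each entry is a square or has a partner -/
def Good (x : ι → ℕ) : Prop := ∀ i, IsSquare (x i) ∨ ∃ j, j ≠ i ∧ IsSquare (x i * x j)

open Classical in
/-- the good tuples which are `1` outside of `I` -/
noncomputable def XX (n : ℕ) (I : Finset ι) : Finset (ι → ℕ) :=
  (Fintype.piFinset fun _ => Icc 1 n).filter fun x => (∀ j, j ∉ I → x j = 1) ∧ Good x

theorem mem_XX {n : ℕ} {I : Finset ι} {x : ι → ℕ} : x ∈ XX n I ↔
    (∀ i, 1 ≤ x i ∧ x i ≤ n) ∧ (∀ j, j ∉ I → x j = 1) ∧ Good x := by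
  simp only [XX, mem_filter, Fintype.mem_piFinset, mem_Icc]

theorem step {n : ℕ} (hn : 1 ≤ n) {I : Finset ι} {i : ι} (hi : i ∈ I) :
    XX n I ⊆ ((XX n (I.erase i) ×ˢ sqs n).image fun p => Function.update p.1 i p.2) ∪
      (((I.erase i).biUnion fun j => (XX n ((I.erase i).erase j) ×ˢ PP n).image fun p =>
        Function.update (Function.update p.1 i p.2.1) j p.2.2) ∪
      ((I.erase i).biUnion fun j => ((I.erase i).erase j).biUnion fun k =>
        (XX n (((I.erase i).erase j).erase k) ×ˢ P3 n).image fun p =>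
          Function.update (Function.update (Function.update p.1 i p.2.1.1) j p.2.1.2) k p.2.2)) := by
  intro x hx
  rw [mem_XX] at hx
  obtain ⟨hb, ho, hg⟩ := hx
  have one_sq : IsSquare 1 := ⟨1, rfl⟩
  by_cases hsq : IsSquare (x i)
  · rw [mem_union]
    left
    rw [mem_image]
    refine ⟨(Function.update x i 1, x i), ?_, by simp⟩
    rw [mem_product, mem_XX, sqs, mem_filter, mem_Icc]
    refine ⟨⟨fun j => ?_, fun j hj => ?_, fun j => ?_⟩, hb i, hsq⟩
    · by_cases hji : j = i
      · subst hji; simp [hn]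
      · simp [Function.update_of_ne hji, hb j]
    · by_cases hji : j = i
      · subst hji; simp
      · simp only [Function.update_of_ne hji]
        exact ho j fun h => hj (mem_erase.2 ⟨hji, h⟩)
    · simp only
      by_cases hji : j = i
      · subst hji; left; simp
      · rw [Function.update_of_ne hji]
        rcases hg j with h | ⟨k, hk, h⟩
        · exact Or.inl h
        · by_cases hki : k = i
          · subst hki
            exact Or.inl (sq_of_mul (hb _).1 hsq h)
          · exact Or.inr ⟨k, hk, by rw [Function.update_of_ne hki]; exact h⟩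
  · rcases hg i with h | ⟨j, hji, hij⟩
    · exact absurd h hsq
    have hjI : j ∈ I := by
      by_contra hj
      rw [ho j hj, mul_one] at hij
      exact hsq hij
    have hjI' : j ∈ I.erase i := mem_erase.2 ⟨hji, hjI⟩
    set y : ι → ℕ := Function.update (Function.update x i 1) j 1 with hy
    have hyj : y j = 1 := by simp [hy]
    have hyi : y i = 1 := by rw [hy, Function.update_of_ne (Ne.symm hji)]; simp
    have hyo : ∀ k, k ≠ i → k ≠ j → y k = x k := fun k h1 h2 => by
      rw [hy, Function.update_of_ne h2, Function.update_of_ne h1]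
    have hyb : ∀ k, 1 ≤ y k ∧ y k ≤ n := by
      intro k
      by_cases h1 : k = i
      · subst h1; rw [hyi]; exact ⟨le_rfl, hn⟩
      · by_cases h2 : k = j
        · subst h2; rw [hyj]; exact ⟨le_rfl, hn⟩
        · rw [hyo k h1 h2]; exact hb k
    rw [mem_union]
    right
    rw [mem_union]
    by_cases hyg : Good y
    · left
      rw [mem_biUnion]
      refine ⟨j, hjI', ?_⟩
      rw [mem_image]
      refine ⟨(y, (x i, x j)), ?_, ?_⟩
      · rw [mem_product, mem_XX, PP, mem_filter, mem_product, mem_Icc, mem_Icc]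
        refine ⟨⟨hyb, fun k hk => ?_, hyg⟩, ⟨hb i, hb j⟩, hij⟩
        simp only
        by_cases h1 : k = i
        · rw [h1]; exact hyi
        · by_cases h2 : k = j
          · rw [h2]; exact hyj
          · rw [hyo k h1 h2]
            exact ho k fun h => hk (mem_erase.2 ⟨h2, mem_erase.2 ⟨h1, h⟩⟩)
      · funext k
        simp only
        by_cases h2 : k = j
        · subst h2; simp
        · rw [Function.update_of_ne h2]
          by_cases h1 : k = i
          · subst h1; simp
          · rw [Function.update_of_ne h1, hyo k h1 h2]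
    · right
      unfold Good at hyg
      push Not at hyg
      obtain ⟨k, hks, hkp⟩ := hyg
      have hki : k ≠ i := by rintro rfl; exact hks (by rw [hyi]; exact one_sq)
      have hkj : k ≠ j := by rintro rfl; exact hks (by rw [hyj]; exact one_sq)
      have hyk : y k = x k := hyo k hki hkj
      rw [hyk] at hks hkp
      have hik : IsSquare (x i * x k) := by
        rcases hg k with h | ⟨l, hlk, h⟩
        · exact absurd h hks
        · by_cases hli : l = i
          · subst hli
            rw [mul_comm]; exact h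
          · by_cases hlj : l = j
            · subst hlj
              exact sq_trans (hb l).1 hij (by rw [mul_comm]; exact h)
            · exact absurd (by rw [hyo l hli hlj]; exact h) (hkp l hlk)
      have hkI : k ∈ I := by
        by_contra hk
        rw [ho k hk] at hks
        exact hks one_sq
      rw [mem_biUnion]
      refine ⟨j, hjI', ?_⟩
      rw [mem_biUnion]
      refine ⟨k, mem_erase.2 ⟨hkj, mem_erase.2 ⟨hki, hkI⟩⟩, ?_⟩
      rw [mem_image]
      refine ⟨(Function.update y k 1, ((x i, x j), x k)), ?_, ?_⟩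
      · rw [mem_product, mem_XX, P3, mem_filter, mem_product, PP, mem_filter, mem_product, mem_Icc,
          mem_Icc, mem_Icc]
        refine ⟨⟨fun l => ?_, fun l hl => ?_, fun l => ?_⟩, ⟨⟨⟨hb i, hb j⟩, hij⟩, hb k⟩, hik⟩
        · by_cases hlk : l = k
          · subst hlk; simp [hn]
          · simp only [Function.update_of_ne hlk]; exact hyb l
        · by_cases hlk : l = k
          · subst hlk; simp
          · simp only [Function.update_of_ne hlk]
            by_cases h1 : l = i
            · rw [h1]; exact hyi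
            · by_cases h2 : l = j
              · rw [h2]; exact hyj
              · rw [hyo l h1 h2]
                exact ho l fun h => hl (mem_erase.2 ⟨hlk, mem_erase.2 ⟨h2, mem_erase.2 ⟨h1, h⟩⟩⟩)
        · simp only
          by_cases hlk : l = k
          · subst hlk; left; simp
          · rw [Function.update_of_ne hlk]
            by_cases h1 : l = i
            · rw [h1, hyi]; exact Or.inl one_sq
            · by_cases h2 : l = j
              · rw [h2, hyj]; exact Or.inl one_sq
              · rw [hyo l h1 h2]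
                rcases hg l with h | ⟨l', hl', h⟩
                · exact Or.inl h
                · -- a partner among `i, j, k` would be a partner of `k`
                  have hno : ¬ IsSquare (x l * x k) := by
                    intro h3
                    exact hkp l hlk (by rw [hyo l h1 h2, mul_comm]; exact h3)
                  have hl'k : l' ≠ k := by rintro rfl; exact hno h
                  have hl'i : l' ≠ i := by rintro rfl; exact hno (sq_trans (hb _).1 h hik)
                  have hl'j : l' ≠ j := by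
                    rintro rfl
                    exact hno (sq_trans (hb _).1 (sq_trans (hb _).1 h (by
                      rw [mul_comm]; exact hij)) hik)
                  exact Or.inr ⟨l', hl', by
                    rw [Function.update_of_ne hl'k, hyo l' hl'i hl'j]; exact h⟩
      · funext l
        simp only
        by_cases h3 : l = k
        · subst h3; simp
        · rw [Function.update_of_ne h3]
          by_cases h2 : l = j
          · subst h2; simp
          · rw [Function.update_of_ne h2]
            by_cases h1 : l = i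
            · subst h1; simp
            · rw [Function.update_of_ne h1, Function.update_of_ne h3, hyo l h1 h2]

end

end Pool.Agent.T3h35.MS
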