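import Pool.Agent.T3h35.MS.B
import Pool.Agent.H383.LinIndep

/-! # The number of good tuples, and integral signed sums of square roots -/

set_option autoImplicit false

open Finset

namespace Pool.Agent.T3h35.MS

section

variable {ι : Type} [Fintype ι] [DecidableEq ι]

theorem card_XX {n : ℕ} (hn : 1 ≤ n) {B : ℝ} (hB1 : 1 ≤ B) (hs : (Nat.sqrt n : ℝ) ≤ B)
    (hP : ((PP n).card : ℝ) ≤ B ^ 2) : ∀ (m : ℕ) (I : Finset ι), I.card = m →
    ((XX n I).card : ℝ) ≤ (3 * ((Fintype.card ι : ℝ) + 1) ^ 2) ^ m * B ^ m := by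
  intro m
  obtain ⟨N, hN⟩ : ∃ N : ℝ, N = (Fintype.card ι : ℝ) := ⟨_, rfl⟩
  have hN0 : 0 ≤ N := by rw [hN]; positivity
  rw [← hN]
  obtain ⟨Q, hQ⟩ : ∃ Q : ℝ, Q = 3 * (N + 1) ^ 2 := ⟨_, rfl⟩
  have hQ1 : 1 ≤ Q := by rw [hQ]; nlinarith
  rw [← hQ]
  have hB0 : 0 ≤ B := by linarith
  induction m using Nat.strong_induction_on with
  | _ m ih =>
  intro I hI
  rcases Nat.eq_zero_or_pos m with h0 | h0
  · subst h0
    have hI0 : I = ∅ := card_eq_zero.1 hI
    have hsub : XX n I ⊆ {fun _ => 1} := by
      intro x hx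
      rw [mem_XX] at hx
      rw [mem_singleton]
      funext j
      exact hx.2.1 j (by rw [hI0]; exact notMem_empty j)
    have h1 := card_le_card hsub
    rw [card_singleton] at h1
    simpa using h1
  · obtain ⟨m', rfl⟩ : ∃ m', m = m' + 1 := ⟨m - 1, by omega⟩
    obtain ⟨i, hi⟩ : I.Nonempty := card_pos.1 (by omega)
    have hIe : (I.erase i).card = m' := by rw [card_erase_of_mem hi]; omega
    have hcN : ((I.erase i).card : ℝ) ≤ N := by
      rw [hN]
      exact_mod_cast card_le_univ _
    have hcN2 : ∀ j, (((I.erase i).erase j).card : ℝ) ≤ N := by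
      intro j
      rw [hN]
      exact_mod_cast card_le_univ _
    obtain ⟨Z, hZ⟩ : ∃ Z : ℝ, Z = Q ^ m' * B ^ (m' + 1) := ⟨_, rfl⟩
    have hZ0 : 0 ≤ Z := by rw [hZ]; positivity
    have h1 := card_le_card (step hn hi)
    have h2 := (h1.trans (card_union_le _ _)).trans (Nat.add_le_add_left (card_union_le _ _) _)
    have b1 : ((((XX n (I.erase i) ×ˢ sqs n).image fun p => Function.update p.1 i p.2).card : ℕ) : ℝ)
        ≤ Z := by
      have h3 : ((((XX n (I.erase i) ×ˢ sqs n).image fun p => Function.update p.1 i p.2).card : ℕ) : ℝ)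
          ≤ ((XX n (I.erase i)).card : ℝ) * ((sqs n).card : ℝ) := by
        rw [← Nat.cast_mul, ← card_product]
        exact_mod_cast card_image_le
      refine h3.trans ?_
      have h4 := ih m' (by omega) (I.erase i) hIe
      have h5 : ((sqs n).card : ℝ) ≤ B := le_trans (by exact_mod_cast card_sqs n) hs
      calc _ ≤ (Q ^ m' * B ^ m') * B := mul_le_mul h4 h5 (by positivity) (by positivity)
        _ = Z := by rw [hZ]; ring
    have b2 : ∀ j ∈ I.erase i, ((((XX n ((I.erase i).erase j) ×ˢ PP n).image fun p =>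
        Function.update (Function.update p.1 i p.2.1) j p.2.2).card : ℕ) : ℝ) ≤ Z := by
      intro j hj
      have hc : ((I.erase i).erase j).card + 1 = m' := by rw [card_erase_add_one hj, hIe]
      have h3 : ((((XX n ((I.erase i).erase j) ×ˢ PP n).image fun p =>
          Function.update (Function.update p.1 i p.2.1) j p.2.2).card : ℕ) : ℝ)
          ≤ ((XX n ((I.erase i).erase j)).card : ℝ) * ((PP n).card : ℝ) := by
        rw [← Nat.cast_mul, ← card_product]
        exact_mod_cast card_image_le
      refine h3.trans ?_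
      obtain ⟨k, hk⟩ : ∃ k, k = ((I.erase i).erase j).card := ⟨_, rfl⟩
      rw [← hk] at hc
      have h4 := ih k (by omega) _ hk.symm
      calc _ ≤ (Q ^ k * B ^ k) * B ^ 2 := mul_le_mul h4 hP (by positivity) (by positivity)
        _ = Q ^ k * B ^ (m' + 1) := by rw [← hc]; ring
        _ ≤ Z := by
          rw [hZ]
          exact mul_le_mul_of_nonneg_right (pow_le_pow_right₀ hQ1 (by omega)) (by positivity)
    have b3 : ∀ j ∈ I.erase i, ∀ k ∈ (I.erase i).erase j,
        ((((XX n (((I.erase i).erase j).erase k) ×ˢ P3 n).image fun p =>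
          Function.update (Function.update (Function.update p.1 i p.2.1.1) j p.2.1.2) k
            p.2.2).card : ℕ) : ℝ) ≤ Z := by
      intro j hj k hk
      have hc : (((I.erase i).erase j).erase k).card + 2 = m' := by
        have e1 := card_erase_add_one hk
        have e2 := card_erase_add_one hj
        omega
      have h3 : ((((XX n (((I.erase i).erase j).erase k) ×ˢ P3 n).image fun p =>
          Function.update (Function.update (Function.update p.1 i p.2.1.1) j p.2.1.2) k
            p.2.2).card : ℕ) : ℝ)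
          ≤ ((XX n (((I.erase i).erase j).erase k)).card : ℝ) * ((P3 n).card : ℝ) := by
        rw [← Nat.cast_mul, ← card_product]
        exact_mod_cast card_image_le
      refine h3.trans ?_
      obtain ⟨l, hl⟩ : ∃ l, l = (((I.erase i).erase j).erase k).card := ⟨_, rfl⟩
      rw [← hl] at hc
      have h4 := ih l (by omega) _ hl.symm
      have h5 : ((P3 n).card : ℝ) ≤ B ^ 2 * B := by
        have h6 : ((P3 n).card : ℝ) ≤ ((PP n).card : ℝ) * (Nat.sqrt n : ℝ) := by
          exact_mod_cast card_P3 n
        exact h6.trans (mul_le_mul hP hs (by positivity) (by positivity))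
      calc _ ≤ (Q ^ l * B ^ l) * (B ^ 2 * B) := mul_le_mul h4 h5 (by positivity) (by positivity)
        _ = Q ^ l * B ^ (m' + 1) := by rw [← hc]; ring
        _ ≤ Z := by
          rw [hZ]
          exact mul_le_mul_of_nonneg_right (pow_le_pow_right₀ hQ1 (by omega)) (by positivity)
    have c2 : ((((I.erase i).biUnion fun j => (XX n ((I.erase i).erase j) ×ˢ PP n).image fun p =>
        Function.update (Function.update p.1 i p.2.1) j p.2.2).card : ℕ) : ℝ) ≤ N * Z := by
      refine (Nat.cast_le.2 card_biUnion_le).trans ?_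
      push_cast
      refine (sum_le_card_nsmul _ _ Z b2).trans ?_
      rw [nsmul_eq_mul]
      exact mul_le_mul_of_nonneg_right hcN hZ0
    have c3 : ((((I.erase i).biUnion fun j => ((I.erase i).erase j).biUnion fun k =>
        (XX n (((I.erase i).erase j).erase k) ×ˢ P3 n).image fun p =>
          Function.update (Function.update (Function.update p.1 i p.2.1.1) j p.2.1.2) k
            p.2.2).card : ℕ) : ℝ) ≤ N * (N * Z) := by
      refine (Nat.cast_le.2 card_biUnion_le).trans ?_
      push_cast
      refine (sum_le_card_nsmul _ _ (N * Z) fun j hj => ?_).trans ?_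
      · refine (Nat.cast_le.2 card_biUnion_le).trans ?_
        push_cast
        refine (sum_le_card_nsmul _ _ Z (b3 j hj)).trans ?_
        rw [nsmul_eq_mul]
        exact mul_le_mul_of_nonneg_right (hcN2 j) hZ0
      · rw [nsmul_eq_mul]
        exact mul_le_mul_of_nonneg_right hcN (by positivity)
    have h3 : ((XX n I).card : ℝ) ≤ Z + (N * Z + N * (N * Z)) := by
      refine (Nat.cast_le.2 h2).trans ?_
      push_cast
      exact add_le_add b1 (add_le_add c2 c3)
    refine h3.trans ?_
    have h4 : Z + (N * Z + N * (N * Z)) = (1 + N + N ^ 2) * Z := by ring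
    have h5 : Q ^ (m' + 1) * B ^ (m' + 1) = Q * Z := by rw [hZ]; ring
    rw [h4, h5]
    refine mul_le_mul_of_nonneg_right ?_ hZ0
    rw [hQ]
    nlinarith

end

open Pool.Agent.H383.Gauss in
/-- if a signed sum of square roots is an integer then each entry is a square or has a partner -/
theorem good_of_int {ι : Type} [Fintype ι] [DecidableEq ι] {x : ι → ℕ} (hx : ∀ i, 1 ≤ x i)
    (ε : ι → ℤ) (hε : ∀ i, ε i ≠ 0) (k : ℤ) (h : (∑ i, (ε i : ℝ) * √(x i : ℝ)) = k) : Good x := by
  classical
  choose s b hsb hs using fun i => Nat.sq_mul_squarefree (x i)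
  have hb : ∀ i, 1 ≤ b i := by
    intro i
    rcases Nat.eq_zero_or_pos (b i) with h0 | h0
    · have h1 := hsb i
      rw [h0] at h1
      have := hx i
      simp at h1
      omega
    · exact h0
  intro i
  by_contra hc
  push Not at hc
  obtain ⟨h1, h2⟩ := hc
  have hsi : s i ≠ 1 := by
    intro h3
    apply h1
    exact ⟨b i, by rw [← hsb i, h3]; ring⟩
  have hsj : ∀ j, j ≠ i → s j ≠ s i := by
    intro j hj h3
    apply h2 j hj
    exact ⟨b i * b j * s i, by rw [← hsb i, ← hsb j, h3]; ring⟩
  let S := {s : ℕ // Squarefree s}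
  let l : S →₀ ℚ := (∑ j, Finsupp.single (⟨s j, hs j⟩ : S) ((ε j : ℚ) * (b j : ℚ))) -
    Finsupp.single (⟨1, squarefree_one⟩ : S) (k : ℚ)
  have hroot : ∀ j, √(x j : ℝ) = (b j : ℝ) * √(s j : ℝ) := by
    intro j
    have e : (x j : ℝ) = (b j : ℝ) ^ 2 * (s j : ℝ) := by
      rw [← hsb j]
      push_cast
      ring
    rw [e, Real.sqrt_mul (by positivity), Real.sqrt_sq (Nat.cast_nonneg _)]
  have hl : Finsupp.linearCombination ℚ (fun s : S => √((s : ℕ) : ℝ)) l = 0 := by
    simp only [l, map_sub, map_sum, Finsupp.linearCombination_single]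
    have e1 : ∀ j, ((ε j : ℚ) * (b j : ℚ)) • √(((⟨s j, hs j⟩ : S) : ℕ) : ℝ) =
        (ε j : ℝ) * √(x j : ℝ) := by
      intro j
      rw [Rat.smul_def, hroot j]
      push_cast
      ring
    rw [Finset.sum_congr rfl fun j _ => e1 j, h, Rat.smul_def]
    simp
  have h3 := linearIndependent_iff.1 sf_indep l hl
  have h4 := DFunLike.congr_fun h3 (⟨s i, hs i⟩ : S)
  simp only [l, Finsupp.coe_sub, Pi.sub_apply, Finsupp.coe_zero, Pi.zero_apply,
    Finsupp.coe_finsetSum, Finset.sum_apply] at h4
  rw [Finset.sum_eq_single i] at h4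
  · rw [Finsupp.single_eq_same, Finsupp.single_eq_of_ne, sub_zero] at h4
    · have h5 : (ε i : ℚ) ≠ 0 := by exact_mod_cast hε i
      have h6 : (b i : ℚ) ≠ 0 := by
        have := hb i
        have h7 : b i ≠ 0 := by omega
        exact_mod_cast h7
      exact mul_ne_zero h5 h6 h4
    · intro h5
      have h6 := congrArg Subtype.val h5
      simp only at h6
      exact hsi h6
  · intro j _ hj
    rw [Finsupp.single_eq_of_ne]
    intro h5
    have h6 := congrArg Subtype.val h5
    simp only at h6
    first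
      | exact hsj j hj h6
      | exact hsj j hj h6.symm
  · intro h5
    exact absurd (Finset.mem_univ i) h5

end Pool.Agent.T3h35.MS
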