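import Pool.Agent.T3h35.MS.A
import Pool.Agent.T3h35.MS.B2

/-! # Moments of the exponential sums over square roots, very large frequencies -/

set_option autoImplicit false

open Finset

namespace Pool.Agent.T3h35.MS

/-- `S(h, n) = ∑_{n/2 ≤ a ≤ n} e(h √a)` -/
noncomputable def S (h n : ℕ) : ℂ :=
  ∑ a ∈ Icc ⌈(n : ℝ) / 2⌉₊ n, Complex.exp (2 * Real.pi * Complex.I * (h * √(a : ℝ) : ℝ))

/-- `M_{2r}(H, n) = ∑_{H/2 ≤ h ≤ H} |S(h, n)|^{2r}` -/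
noncomputable def M (r H : ℝ) (n : ℕ) : ℝ := ∑ h ∈ Icc ⌈H / 2⌉₊ ⌊H⌋₊, ‖S h n‖ ^ (2 * r)

theorem norm_z (θ : ℝ) (m : ℤ) (hm : |θ - m| ≤ 1 / 2) :
    2 * |θ - m| ≤ ‖Complex.exp (2 * Real.pi * Complex.I * (θ : ℝ)) - 1‖ := by
  have h1 : Complex.exp (2 * Real.pi * Complex.I * (θ : ℝ)) =
      Complex.exp (Complex.I * ((2 * Real.pi * (θ - m) : ℝ) : ℂ)) := by
    have h2 : (2 * Real.pi * Complex.I * (θ : ℝ) : ℂ) =
        Complex.I * ((2 * Real.pi * (θ - m) : ℝ) : ℂ) + (m : ℂ) * (2 * Real.pi * Complex.I) := by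
      push_cast
      ring
    rw [h2, Complex.exp_add, Complex.exp_int_mul_two_pi_mul_I, mul_one]
  rw [h1, Complex.norm_exp_I_mul_ofReal_sub_one, Real.norm_eq_abs, abs_mul,
    abs_of_pos (by norm_num : (0 : ℝ) < 2)]
  have h3 : (2 * Real.pi * (θ - m)) / 2 = Real.pi * (θ - m) := by ring
  rw [h3]
  have hpi := Real.pi_pos
  have h4 : |Real.pi * (θ - m)| ≤ Real.pi / 2 := by
    rw [abs_mul, abs_of_pos hpi]
    nlinarith
  have h5 := Real.mul_abs_le_abs_sin h4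
  rw [abs_mul, abs_of_pos hpi] at h5
  have h6 : 2 / Real.pi * (Real.pi * |θ - m|) = 2 * |θ - m| := by field_simp
  rw [h6] at h5
  have h7 := abs_nonneg (θ - (m : ℝ))
  linarith

theorem exp_pow (θ : ℝ) (h : ℕ) : Complex.exp (2 * Real.pi * Complex.I * ((h : ℝ) * θ : ℝ)) =
    Complex.exp (2 * Real.pi * Complex.I * (θ : ℝ)) ^ h := by
  rw [← Complex.exp_nat_mul]
  congr 1
  push_cast
  ring

theorem norm_exp1 (θ : ℝ) : ‖Complex.exp (2 * Real.pi * Complex.I * (θ : ℝ))‖ = 1 := by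
  have h1 : (2 * Real.pi * Complex.I * (θ : ℝ) : ℂ) = ((2 * Real.pi * θ : ℝ) : ℂ) * Complex.I := by
    push_cast
    ring
  rw [h1, Complex.norm_exp_ofReal_mul_I]

theorem norm_geom (θ : ℝ) (m : ℤ) (hm : |θ - m| ≤ 1 / 2) (hne : θ - m ≠ 0) (a b : ℕ) :
    ‖∑ h ∈ Icc a b, Complex.exp (2 * Real.pi * Complex.I * ((h : ℝ) * θ : ℝ))‖ ≤ 1 / |θ - m| := by
  have hpos : 0 < |θ - m| := abs_pos.2 hne
  simp only [exp_pow]
  obtain ⟨z, hz⟩ : ∃ z, z = Complex.exp (2 * Real.pi * Complex.I * (θ : ℝ)) := ⟨_, rfl⟩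
  have hz1 := norm_exp1 θ
  have hz2 := norm_z θ m hm
  rw [← hz] at hz1 hz2 ⊢
  have hzne : z ≠ 1 := by
    intro h
    rw [h, sub_self, norm_zero] at hz2
    linarith
  rw [← Finset.Ico_add_one_right_eq_Icc]
  rcases le_or_gt a (b + 1) with hab | hab
  · rw [geom_sum_Ico hzne hab, norm_div, div_le_div_iff₀ (by linarith) hpos, one_mul]
    have h1 : ‖z ^ (b + 1) - z ^ a‖ ≤ 2 := by
      refine (norm_sub_le _ _).trans ?_
      rw [norm_pow, norm_pow, hz1, one_pow, one_pow]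
      norm_num
    calc ‖z ^ (b + 1) - z ^ a‖ * |θ - m| ≤ 2 * |θ - m| := mul_le_mul_of_nonneg_right h1 hpos.le
      _ ≤ _ := hz2
  · rw [Finset.Ico_eq_empty_of_le hab.le, sum_empty, norm_zero]
    positivity

/-- the signs -/
def sg (k : ℕ) (i : Fin k ⊕ Fin k) : ℤ := Sum.elim (fun _ => 1) (fun _ => -1) i

theorem expand (k h n : ℕ) : ((‖S h n‖ ^ (2 * k) : ℝ) : ℂ) =
    ∑ x ∈ Fintype.piFinset (fun _ : Fin k ⊕ Fin k => Icc ⌈(n : ℝ) / 2⌉₊ n),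
      Complex.exp (2 * Real.pi * Complex.I * ((h : ℝ) * (∑ i, (sg k i : ℝ) * √(x i : ℝ)) : ℝ)) := by
  have h1 : ∏ i : Fin k ⊕ Fin k, ∑ a ∈ Icc ⌈(n : ℝ) / 2⌉₊ n,
      Complex.exp (2 * Real.pi * Complex.I * ((h : ℝ) * ((sg k i : ℝ) * √(a : ℝ)) : ℝ)) =
      ((‖S h n‖ ^ (2 * k) : ℝ) : ℂ) := by
    rw [Fintype.prod_sum_type]
    have e1 : ∀ i : Fin k, ∑ a ∈ Icc ⌈(n : ℝ) / 2⌉₊ n,
        Complex.exp (2 * Real.pi * Complex.I * ((h : ℝ) * ((sg k (Sum.inl i) : ℝ) * √(a : ℝ)) : ℝ)) =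
        S h n := by
      intro i
      unfold S
      refine sum_congr rfl fun a _ => ?_
      congr 2
      simp [sg]
    have e2 : ∀ i : Fin k, ∑ a ∈ Icc ⌈(n : ℝ) / 2⌉₊ n,
        Complex.exp (2 * Real.pi * Complex.I * ((h : ℝ) * ((sg k (Sum.inr i) : ℝ) * √(a : ℝ)) : ℝ)) =
        (starRingEnd ℂ) (S h n) := by
      intro i
      unfold S
      rw [map_sum]
      refine sum_congr rfl fun a _ => ?_
      rw [← Complex.exp_conj]
      congr 1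
      simp [sg]
      exact Or.inl (map_ofNat (starRingEnd ℂ) 2).symm
    simp only [e1, e2, prod_const, card_univ, Fintype.card_fin]
    rw [← mul_pow, Complex.mul_conj, Complex.normSq_eq_norm_sq]
    push_cast
    rw [← pow_mul]
  rw [← h1, prod_univ_sum]
  refine sum_congr rfl fun x _ => ?_
  rw [← Complex.exp_sum]
  congr 1
  push_cast
  rw [mul_sum, mul_sum]

end Pool.Agent.T3h35.MS
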