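import Pool.Agent.T3h35.MS.C

/-! # Moments of the exponential sums over square roots, very large frequencies: the bound -/

set_option autoImplicit false

open Finset

namespace Pool.Agent.T3h35.MS

/-- the exponent -/
noncomputable def th (k : ℕ) (x : Fin k ⊕ Fin k → ℕ) : ℝ := ∑ i, (sg k i : ℝ) * √(x i : ℝ)

theorem sg_abs (k : ℕ) (i : Fin k ⊕ Fin k) : |sg k i| = 1 := by
  rcases i with i | i <;> simp [sg]

theorem sg_ne (k : ℕ) (i : Fin k ⊕ Fin k) : sg k i ≠ 0 := by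
  intro h
  have := sg_abs k i
  rw [h] at this
  simp at this

theorem off_bound (k n : ℕ) (hn : 1 ≤ n) (x : Fin k ⊕ Fin k → ℕ)
    (hx : ∀ i, 1 ≤ x i ∧ x i ≤ n) (hne : ∀ m : ℤ, th k x ≠ m) (a b : ℕ) :
    ‖∑ h ∈ Icc a b, Complex.exp (2 * Real.pi * Complex.I * ((h : ℝ) * th k x : ℝ))‖ ≤
      (4 * (k : ℝ) + 1) ^ (4 ^ k) * (n : ℝ) ^ (4 ^ k / 2) := by
  obtain ⟨m, hm⟩ : ∃ m : ℤ, m = round (th k x) := ⟨_, rfl⟩
  have hm1 : |th k x - m| ≤ 1 / 2 := by rw [hm]; exact abs_sub_round _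
  have hne' : th k x - m ≠ 0 := sub_ne_zero.2 (hne m)
  have hpos : 0 < |th k x - m| := abs_pos.2 hne'
  refine (norm_geom (th k x) m hm1 hne' a b).trans ?_
  rw [div_le_iff₀ hpos]
  have h1 := lower_sum (a := x) (fun i => (hx i).1) (sg k) (sg_abs k) m hne'
  have hs : ∑ i, √(x i : ℝ) ≤ 2 * k * √(n : ℝ) := by
    have h2 : ∀ i ∈ (univ : Finset (Fin k ⊕ Fin k)), √(x i : ℝ) ≤ √(n : ℝ) := fun i _ =>
      Real.sqrt_le_sqrt (by exact_mod_cast (hx i).2)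
    refine (sum_le_card_nsmul _ _ _ h2).trans (le_of_eq ?_)
    rw [card_univ, Fintype.card_sum, Fintype.card_fin, nsmul_eq_mul]
    push_cast
    ring
  have hs0 : 0 ≤ ∑ i, √(x i : ℝ) := sum_nonneg fun i _ => Real.sqrt_nonneg _
  have hth : |th k x| ≤ ∑ i, √(x i : ℝ) := by
    unfold th
    refine (abs_sum_le_sum_abs _ _).trans (sum_le_sum fun i _ => ?_)
    rw [abs_mul, abs_of_nonneg (Real.sqrt_nonneg _)]
    have : |(sg k i : ℝ)| = 1 := by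
      rw [← Int.cast_abs, sg_abs]
      simp
    rw [this, one_mul]
  have hmabs : |(m : ℝ)| ≤ ∑ i, √(x i : ℝ) + 1 := by
    have h3 : (m : ℝ) = th k x - (th k x - m) := by ring
    rw [h3]
    have h4 := abs_sub (th k x) (th k x - m)
    linarith
  have hn1 : 1 ≤ √(n : ℝ) := by
    rw [Real.one_le_sqrt]
    exact_mod_cast hn
  have hW : |(m : ℝ)| + ∑ i, √(x i : ℝ) ≤ (4 * k + 1) * √(n : ℝ) := by
    nlinarith
  have hW1 : 1 ≤ (4 * (k : ℝ) + 1) * √(n : ℝ) := by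
    have : (0 : ℝ) ≤ k := Nat.cast_nonneg k
    nlinarith
  have h5 : (|(m : ℝ)| + ∑ i, √(x i : ℝ)) ^ (2 ^ Fintype.card (Fin k ⊕ Fin k) - 1) ≤
      ((4 * k + 1) * √(n : ℝ)) ^ (4 ^ k) := by
    refine (pow_le_pow_left₀ (by positivity) hW _).trans (pow_le_pow_right₀ hW1 ?_)
    rw [Fintype.card_sum, Fintype.card_fin, ← two_mul, pow_mul]
    exact Nat.sub_le _ _
  have h6 : ((4 * (k : ℝ) + 1) * √(n : ℝ)) ^ (4 ^ k) ≤
      (4 * (k : ℝ) + 1) ^ (4 ^ k) * (n : ℝ) ^ (4 ^ k / 2) := by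
    rw [mul_pow]
    refine mul_le_mul_of_nonneg_left ?_ (by positivity)
    rcases Nat.eq_zero_or_pos k with hk | hk
    · exfalso
      subst hk
      apply hne 0
      unfold th
      simp
    · have h7 : 4 ^ k = 2 * (4 ^ k / 2) := by
        obtain ⟨j, rfl⟩ : ∃ j, k = j + 1 := ⟨k - 1, by omega⟩
        rw [pow_succ]
        omega
      conv_lhs => rw [h7]
      rw [pow_mul, Real.sq_sqrt (Nat.cast_nonneg n)]
  have h8 : 1 ≤ |th k x - m| * ((4 * (k : ℝ) + 1) ^ (4 ^ k) * (n : ℝ) ^ (4 ^ k / 2)) :=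
    h1.trans (mul_le_mul_of_nonneg_left (h5.trans h6) hpos.le)
  rw [mul_comm]
  exact h8

theorem main_nat (k : ℕ) : ∃ C : ℝ, 0 ≤ C ∧ ∀ (n : ℕ), 1 ≤ n → ∀ H : ℝ,
    (n : ℝ) ^ (k + 4 ^ k / 2) ≤ H → ∑ h ∈ Icc ⌈H / 2⌉₊ ⌊H⌋₊, ‖S h n‖ ^ (2 * k) ≤
      C * H * (n * (1 + Real.log n)) ^ k := by
  classical
  obtain ⟨Q, hQ⟩ : ∃ Q : ℝ, Q = 3 * ((Fintype.card (Fin k ⊕ Fin k) : ℝ) + 1) ^ 2 := ⟨_, rfl⟩
  have hQ0 : 0 ≤ Q := by rw [hQ]; positivity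
  refine ⟨Q ^ (2 * k) + (4 * (k : ℝ) + 1) ^ (4 ^ k), by positivity, fun n hn H hH => ?_⟩
  have hnr : (1 : ℝ) ≤ n := by exact_mod_cast hn
  have hlog : 0 ≤ Real.log n := Real.log_nonneg hnr
  have hH1 : 1 ≤ H := le_trans (one_le_pow₀ hnr) hH
  obtain ⟨X, hX⟩ : ∃ X, X = Fintype.piFinset (fun _ : Fin k ⊕ Fin k => Icc ⌈(n : ℝ) / 2⌉₊ n) :=
    ⟨_, rfl⟩
  have hXm : ∀ x ∈ X, ∀ i, 1 ≤ x i ∧ x i ≤ n := by
    intro x hx i
    rw [hX, Fintype.mem_piFinset] at hx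
    have h1 := mem_Icc.1 (hx i)
    refine ⟨?_, h1.2⟩
    have h2 : 0 < ⌈(n : ℝ) / 2⌉₊ := Nat.ceil_pos.2 (by linarith)
    omega
  -- the exchange of the sums
  have h1 : (∑ h ∈ Icc ⌈H / 2⌉₊ ⌊H⌋₊, ‖S h n‖ ^ (2 * k)) ≤ ∑ x ∈ X,
      ‖∑ h ∈ Icc ⌈H / 2⌉₊ ⌊H⌋₊, Complex.exp (2 * Real.pi * Complex.I * ((h : ℝ) * th k x : ℝ))‖ := by
    have h2 : (((∑ h ∈ Icc ⌈H / 2⌉₊ ⌊H⌋₊, ‖S h n‖ ^ (2 * k) : ℝ)) : ℂ) = ∑ x ∈ X,
        ∑ h ∈ Icc ⌈H / 2⌉₊ ⌊H⌋₊, Complex.exp (2 * Real.pi * Complex.I * ((h : ℝ) * th k x : ℝ)) := by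
      rw [sum_comm, Complex.ofReal_sum]
      refine sum_congr rfl fun h _ => ?_
      rw [expand, hX]
      rfl
    have h3 : (∑ h ∈ Icc ⌈H / 2⌉₊ ⌊H⌋₊, ‖S h n‖ ^ (2 * k)) =
        ‖(((∑ h ∈ Icc ⌈H / 2⌉₊ ⌊H⌋₊, ‖S h n‖ ^ (2 * k) : ℝ)) : ℂ)‖ := by
      rw [Complex.norm_real, Real.norm_of_nonneg]
      exact sum_nonneg fun h _ => by positivity
    rw [h3, h2]
    exact norm_sum_le _ _
  refine h1.trans ?_
  rw [← sum_filter_add_sum_filter_not X fun x => ∃ m : ℤ, th k x = m]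
  have hcardH : ((Icc ⌈H / 2⌉₊ ⌊H⌋₊).card : ℝ) ≤ H := by
    rw [Nat.card_Icc]
    have h2 : 0 < ⌈H / 2⌉₊ := Nat.ceil_pos.2 (by linarith)
    have h3 : ⌊H⌋₊ + 1 - ⌈H / 2⌉₊ ≤ ⌊H⌋₊ := by omega
    exact le_trans (by exact_mod_cast h3) (Nat.floor_le (by linarith))
  -- the diagonal
  have hB0 : 0 ≤ (n : ℝ) * (1 + Real.log n) := by positivity
  obtain ⟨B, hB⟩ : ∃ B : ℝ, B = √((n : ℝ) * (1 + Real.log n)) := ⟨_, rfl⟩
  have hB2 : B ^ 2 = n * (1 + Real.log n) := by rw [hB, Real.sq_sqrt hB0]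
  have hB1 : 1 ≤ B := by
    rw [hB, Real.one_le_sqrt]
    nlinarith
  have hBs : (Nat.sqrt n : ℝ) ≤ B := by
    rw [hB]
    apply Real.le_sqrt_of_sq_le
    have h2 : (Nat.sqrt n : ℝ) ^ 2 ≤ n := by
      have := Nat.sqrt_le' n
      exact_mod_cast this
    nlinarith
  have hdiag : ∑ x ∈ X.filter (fun x => ∃ m : ℤ, th k x = m),
      ‖∑ h ∈ Icc ⌈H / 2⌉₊ ⌊H⌋₊, Complex.exp (2 * Real.pi * Complex.I * ((h : ℝ) * th k x : ℝ))‖ ≤
      Q ^ (2 * k) * H * (n * (1 + Real.log n)) ^ k := by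
    have h2 : ((X.filter (fun x => ∃ m : ℤ, th k x = m)).card : ℝ) ≤ Q ^ (2 * k) * B ^ (2 * k) := by
      have h3 : X.filter (fun x => ∃ m : ℤ, th k x = m) ⊆ XX n univ := by
        intro x hx
        rw [mem_filter] at hx
        obtain ⟨hx1, m, hm⟩ := hx
        rw [mem_XX]
        exact ⟨hXm x hx1, fun j hj => absurd (mem_univ j) hj,
          good_of_int (fun i => (hXm x hx1 i).1) (sg k) (sg_ne k) m hm⟩
      have h4 := card_XX (ι := Fin k ⊕ Fin k) hn hB1 hBs (by rw [hB2]; exact card_PP n) (2 * k) univ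
        (by rw [card_univ, Fintype.card_sum, Fintype.card_fin, two_mul])
      rw [← hQ] at h4
      exact le_trans (by exact_mod_cast card_le_card h3) h4
    refine (sum_le_card_nsmul _ _ H fun x _ => ?_).trans ?_
    · refine (norm_sum_le _ _).trans ?_
      refine le_trans (le_of_eq ?_) hcardH
      rw [sum_congr rfl fun h _ => norm_exp1 _, sum_const, nsmul_eq_mul, mul_one]
    · rw [nsmul_eq_mul]
      have h5 : B ^ (2 * k) = (n * (1 + Real.log n)) ^ k := by rw [pow_mul, hB2]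
      rw [h5] at h2
      have := mul_le_mul_of_nonneg_right h2 (by linarith : 0 ≤ H)
      linarith
  -- the rest
  have hoff : ∑ x ∈ X.filter (fun x => ¬ ∃ m : ℤ, th k x = m),
      ‖∑ h ∈ Icc ⌈H / 2⌉₊ ⌊H⌋₊, Complex.exp (2 * Real.pi * Complex.I * ((h : ℝ) * th k x : ℝ))‖ ≤
      (4 * (k : ℝ) + 1) ^ (4 ^ k) * H * (n * (1 + Real.log n)) ^ k := by
    have h2 : ((X.filter (fun x => ¬ ∃ m : ℤ, th k x = m)).card : ℝ) ≤ (n : ℝ) ^ (2 * k) := by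
      have h3 : X.card ≤ n ^ (2 * k) := by
        rw [hX, Fintype.card_piFinset, prod_const, card_univ, Fintype.card_sum, Fintype.card_fin,
          Nat.card_Icc, ← two_mul]
        apply Nat.pow_le_pow_left
        have h2 : 0 < ⌈(n : ℝ) / 2⌉₊ := Nat.ceil_pos.2 (by linarith)
        omega
      have h4 := (card_filter_le X (fun x => ¬ ∃ m : ℤ, th k x = m)).trans h3
      exact_mod_cast h4
    refine (sum_le_card_nsmul _ _ ((4 * (k : ℝ) + 1) ^ (4 ^ k) * (n : ℝ) ^ (4 ^ k / 2))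
      fun x hx => ?_).trans ?_
    · rw [mem_filter] at hx
      push Not at hx
      exact off_bound k n hn x (hXm x hx.1) hx.2 _ _
    · rw [nsmul_eq_mul]
      have h5 := mul_le_mul_of_nonneg_right h2
        (by positivity : 0 ≤ (4 * (k : ℝ) + 1) ^ (4 ^ k) * (n : ℝ) ^ (4 ^ k / 2))
      refine h5.trans ?_
      have h6 : (n : ℝ) ^ (2 * k) * ((4 * (k : ℝ) + 1) ^ (4 ^ k) * (n : ℝ) ^ (4 ^ k / 2)) =
          (4 * (k : ℝ) + 1) ^ (4 ^ k) * (n : ℝ) ^ (k + 4 ^ k / 2) * (n : ℝ) ^ k := by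
        ring
      rw [h6]
      have h7 : (n : ℝ) ^ k ≤ (n * (1 + Real.log n)) ^ k :=
        pow_le_pow_left₀ (by positivity) (by nlinarith) k
      exact mul_le_mul (mul_le_mul_of_nonneg_left hH (by positivity)) h7 (by positivity)
        (by positivity)
  have h9 := add_le_add hdiag hoff
  refine h9.trans (le_of_eq ?_)
  ring

end Pool.Agent.T3h35.MS
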